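import Mathlib
import Pool.Agent.Helper18.UW.GoalsG
import Pool.Agent.Helper69.EW.GE

/-!
# UW packet GE4: the special points exist, for arbitrary multiplicities and rows of start
-/

set_option autoImplicit false

namespace Pool.Agent.Helper59.UW

open Finset Pool.Agent.Helper18.UW
open Pool.Agent.Helper69.EW (exists_mod dist even_of_mod pow_lt)

/-- the points which have started at the row `t` -/
def AA (b K : ℕ) (r : ℕ → ℕ) (t : ℕ) : Finset ℕ := (range K).filter (fun i => i < b ∨ r i ≤ t)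

theorem mem_AA {b K : ℕ} {r : ℕ → ℕ} {t i : ℕ} :
    i ∈ AA b K r t ↔ i < K ∧ (i < b ∨ r i ≤ t) := by
  simp [AA]

/-- The state of the construction at the row `t`. -/
structure St (μ b K τ M E P0 : ℕ) (ms r Γ : ℕ → ℕ) (t : ℕ) (e P : ℕ → ℕ) : Prop where
  s1 : ∀ i ∈ AA b K r t, e i ≤ E ∧ E ≤ 2 * e i ∧ e i % M = 2 * (μ + 1) ^ i
  s2 : ∀ t', τ ≤ t' → t' ≤ t → Odd (P t')
  s3 : ∀ t', τ ≤ t' → t' < t → P (t' + 1) + E ≤ P t'
  s4 : ∀ t', τ ≤ t' → t' ≤ t → ∑ i ∈ AA b K r t, (ms i - P t' / e i) = Γ t'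
  s5 : ∀ i < b, 74 * E ≤ 100 * e i ∧ P0 < ms i * e i + E
  s6 : P τ ≤ P0
  s7 : ∀ i, b ≤ i → i < K → r i ≤ t → ∀ t', τ ≤ t' → t' ≤ t →
      (P t' / e i < ms i ↔ r i ≤ t')

theorem anti {μ b K τ M E P0 : ℕ} {ms r Γ : ℕ → ℕ} {t : ℕ} {e P : ℕ → ℕ}
    (hst : St μ b K τ M E P0 ms r Γ t e P) (n t' : ℕ) : t' + n = t → τ ≤ t' →
    P t ≤ P t' := by
  induction n generalizing t' with
  | zero =>
    intro h1 _
    have : t' = t := by omega
    rw [this]
  | succ n ih =>
    intro h1 h2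
    have h4 := ih (t' + 1) (by omega) (by omega)
    have h5 := hst.s3 t' h2 (by omega)
    omega

/-- the sum over the first batch is at most the sum over all the points that have started -/
theorem sum_le {b K : ℕ} (r : ℕ → ℕ) (t : ℕ) (hbK : b ≤ K) (F : ℕ → ℕ) :
    ∑ i ∈ range b, F i ≤ ∑ i ∈ AA b K r t, F i := by
  apply Finset.sum_le_sum_of_subset
  intro i hi
  rw [mem_range] at hi
  rw [mem_AA]
  exact ⟨by omega, Or.inl hi⟩

theorem AA_all {b K : ℕ} {r : ℕ → ℕ} {t J1 : ℕ} (hr : ∀ i, b ≤ i → i < K → r i ≤ J1)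
    (ht : J1 ≤ t) : AA b K r t = range K := by
  ext i
  rw [mem_AA, mem_range]
  constructor
  · exact fun h => h.1
  · intro h
    refine ⟨h, ?_⟩
    rcases Nat.lt_or_ge i b with h1 | h1
    · exact Or.inl h1
    · exact Or.inr ((hr i h1 h).trans ht)

/-- many small summands are impossible -/
theorem pigeon {μ b : ℕ} (hb : 1 ≤ b) (F : ℕ → ℕ) (h : 4 * ∑ i ∈ range b, F i ≤ b * μ) :
    ∃ i < b, 4 * F i ≤ μ := by
  by_contra hcon
  push Not at hcon
  have h1 : ∀ i ∈ range b, μ + 1 ≤ 4 * F i := by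
    intro i hi
    rw [mem_range] at hi
    have := hcon i hi
    omega
  have h2 := Finset.sum_le_sum h1
  rw [Finset.sum_const, card_range, smul_eq_mul, ← Finset.mul_sum] at h2
  have h3 : b * (μ + 1) = b * μ + b := by ring
  omega

/-- The next value of `P`. -/
theorem step (hGA : GoalGA4) {μ b K τ J1 M E P0 : ℕ} {ms r Γ : ℕ → ℕ} {t : ℕ} {e P : ℕ → ℕ}
    (hμ : 1000 ≤ μ) (hb : 1 ≤ b) (hbK : b ≤ K) (hM : M = 2 * (μ + 1) ^ (K + 1))
    (hE : E = 4000 * μ ^ 2 * M) (hms : ∀ i < K, 99 * μ ≤ 100 * ms i ∧ ms i ≤ μ)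
    (hr : ∀ i, b ≤ i → i < K → r i ≤ J1)
    (hst : St μ b K τ M E P0 ms r Γ t e P) (hτt : τ ≤ t)
    (hup : 4 * Γ J1 ≤ b * μ) (hmon : t ≤ J1 → Γ t ≤ Γ J1)
    (hmon1 : t + 1 ≤ J1 → Γ (t + 1) ≤ Γ J1)
    (hgr : Γ t + 4 * K ≤ Γ (t + 1)) (hlt : Γ (t + 1) < ∑ i ∈ range K, ms i) (g : ℕ)
    (h1 : Γ t + 2 * K ≤ g) (h2 : g ≤ Γ (t + 1)) :
    ∃ p, Odd p ∧ p + E ≤ P t ∧ ∑ i ∈ AA b K r t, (ms i - p / e i) = g := by
  have hMp : 0 < M := by rw [hM]; positivity
  have hEp : 0 < E := by rw [hE]; positivity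
  have hEe : Even E := by rw [hE]; exact ⟨2000 * μ ^ 2 * M, by ring⟩
  have hpos : ∀ i ∈ AA b K r t, 0 < e i := by
    intro i hi
    have := (hst.s1 i hi).2.1
    omega
  have hEP : E ≤ P t := by
    by_contra h
    push Not at h
    have h3 : ∀ i ∈ AA b K r t, ms i - 1 ≤ ms i - P t / e i := by
      intro i hi
      have h4 := (hst.s1 i hi).2.1
      have h5 : P t / e i < 2 := by
        rw [Nat.div_lt_iff_lt_mul (hpos i hi)]
        omega
      omega
    have h4 := Finset.sum_le_sum h3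
    rw [hst.s4 t hτt le_rfl] at h4
    rcases Nat.lt_or_ge J1 t with hJ | hJ
    · rw [AA_all hr hJ.le] at h4
      have h5 : ∑ i ∈ range K, ms i ≤ ∑ i ∈ range K, (ms i - 1) + K := by
        have h6 : ∑ i ∈ range K, ms i ≤ ∑ i ∈ range K, ((ms i - 1) + 1) :=
          Finset.sum_le_sum (fun i _ => by omega)
        rw [Finset.sum_add_distrib, Finset.sum_const, card_range, smul_eq_mul, mul_one] at h6
        exact h6
      omega
    · have h5 := sum_le r t hbK (fun i => ms i - 1)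
      have h6 : 4 * ∑ i ∈ range b, (ms i - 1) ≤ b * μ := by
        have := hmon hJ
        omega
      obtain ⟨i, hi, h7⟩ := pigeon hb _ h6
      have h8 := (hms i (by omega)).1
      omega
  have hsum : ∑ i ∈ AA b K r t, (ms i - (P t - E) / e i) ≤ g := by
    refine le_trans ?_ h1
    have h3 : ∀ i ∈ AA b K r t, ms i - (P t - E) / e i ≤ (ms i - P t / e i) + 2 := by
      intro i hi
      have h4 := (hst.s1 i hi).2.1
      have h5 : P t / e i ≤ (P t - E) / e i + 2 := by
        have h6 : P t ≤ (P t - E) + 2 * e i := by omega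
        have h7 := Nat.div_le_div_right (c := e i) h6
        rwa [Nat.add_mul_div_right _ _ (hpos i hi)] at h7
      omega
    have h4 := Finset.sum_le_sum h3
    rw [Finset.sum_add_distrib, hst.s4 t hτt le_rfl, Finset.sum_const, smul_eq_mul] at h4
    have h5 : (AA b K r t).card ≤ K := by
      calc (AA b K r t).card ≤ (range K).card := Finset.card_filter_le _ _
        _ = K := card_range K
    omega
  have hglt : g < ∑ i ∈ AA b K r t, ms i := by
    rcases Nat.lt_or_ge t J1 with hJ | hJ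
    · by_contra hcon
      push Not at hcon
      have h5 := sum_le r t hbK ms
      have h6 : 4 * ∑ i ∈ range b, ms i ≤ b * μ := by
        have := hmon1 hJ
        omega
      obtain ⟨i, hi, h7⟩ := pigeon hb _ h6
      have h8 := (hms i (by omega)).1
      omega
    · rw [AA_all hr hJ]
      omega
  obtain ⟨p, hp1, hp2, hp3⟩ := hGA μ (AA b K r t) ms e (P t - E) g
    (fun i hi => ⟨hpos i hi, even_of_mod μ K i (e i) (hM ▸ (hst.s1 i hi).2.2),
      (hms i (mem_AA.1 hi).1).2⟩)
    (fun i hi j hj hij a c ha haμ hc hcμ => dist μ K i j a c (e i) (e j) (mem_AA.1 hi).1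
      (mem_AA.1 hj).1 hij ha haμ hc hcμ (hM ▸ (hst.s1 i hi).2.2) (hM ▸ (hst.s1 j hj).2.2))
    (Nat.Odd.sub_even hEP (hst.s2 t hτt le_rfl) hEe) hsum hglt
  exact ⟨p, hp1, by omega, hp3⟩

/-- lower bound for `p` at the rows where new points start -/
theorem p_low {μ b K τ M E P0 : ℕ} {ms r Γ : ℕ → ℕ} {t : ℕ} {e P : ℕ → ℕ}
    (hb : 1 ≤ b) (hbK : b ≤ K) (_hEp : 0 < E)
    (hms : ∀ i < K, 99 * μ ≤ 100 * ms i ∧ ms i ≤ μ)
    (hst : St μ b K τ M E P0 ms r Γ t e P) (p g : ℕ)
    (hp : ∑ i ∈ AA b K r t, (ms i - p / e i) = g) (hg : 4 * g ≤ b * μ) :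
    5476 * (μ * E) ≤ 10000 * p := by
  have h5 := sum_le r t hbK (fun i => ms i - p / e i)
  have h6 : 4 * ∑ i ∈ range b, (ms i - p / e i) ≤ b * μ := by omega
  obtain ⟨i, hi, h7⟩ := pigeon hb _ h6
  have h8 := (hms i (by omega)).1
  have h9 := (hst.s5 i hi).1
  have h10 : 74 * μ ≤ 100 * (p / e i) := by omega
  have h11 : p / e i * e i ≤ p := Nat.div_mul_le_self _ _
  have h12 : (74 * μ) * (74 * E) ≤ (100 * (p / e i)) * (100 * e i) := Nat.mul_le_mul h10 h9
  have h13 : (74 * μ) * (74 * E) = 5476 * (μ * E) := by ring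
  have h14 : (100 * (p / e i)) * (100 * e i) = 10000 * (p / e i * e i) := by ring
  omega

/-- the slope of a new point -/
theorem new_slope {μ K M E P0 m p i : ℕ} (hμ : 1000 ≤ μ) (hM : M = 2 * (μ + 1) ^ (K + 1))
    (hE : E = 4000 * μ ^ 2 * M) (hP0 : 4 * P0 = 3 * (μ * E) + 4) (hi : i < K)
    (hm1 : 99 * μ ≤ 100 * m) (hm2 : m ≤ μ) (hp1 : 5476 * (μ * E) ≤ 10000 * p) (hp2 : p ≤ P0) :
    ∃ f, f ≤ E ∧ E ≤ 2 * f ∧ f % M = 2 * (μ + 1) ^ i ∧ p / f = m - 1 ∧ p + f < p + 1 + m * f ∧
      (m - 1) * f ≤ p ∧ p < m * f := by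
  have hMp : 0 < M := by rw [hM]; positivity
  have hlt : 2 * (μ + 1) ^ i < M := by
    have := pow_lt μ K i (by omega) hi 1 (by omega)
    rw [hM]
    simpa using this
  obtain ⟨f, hf1, hf2, hf3⟩ := exists_mod M _ (p / m) hlt
  have hmp : 0 < m := by omega
  have hdiv : m * (p / m) ≤ p := Nat.mul_div_le _ _
  have hdiv2 : p < m * (p / m) + m := by
    have h1 := Nat.div_add_mod p m
    have h2 := Nat.mod_lt p hmp
    omega
  -- `μ M ≤ p / m`
  have hμM : 1000 * (μ * M) ≤ μ * μ * M := by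
    have : 1000 * (μ * M) ≤ μ * (μ * M) := Nat.mul_le_mul_right _ hμ
    calc 1000 * (μ * M) ≤ μ * (μ * M) := this
      _ = μ * μ * M := by ring
  have hEM : E = 4000 * (μ * μ * M) := by rw [hE]; ring
  have hlo : μ * M ≤ p / m := by
    rw [Nat.le_div_iff_mul_le hmp]
    have h1 : μ * M * m ≤ μ * (μ * M) := by
      calc μ * M * m ≤ μ * M * μ := Nat.mul_le_mul_left _ hm2
        _ = μ * (μ * M) := by ring
    have h2 : μ * (μ * M) ≤ μ * E := Nat.mul_le_mul_left _ (by
      have h3 : 0 < μ * M := by positivity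
      rw [hEM]
      omega)
    have h4 : 5000 * (μ * (μ * M)) ≤ μ * E := by
      have h5 : 5000 * (μ * M) ≤ E := by rw [hEM]; omega
      calc 5000 * (μ * (μ * M)) = μ * (5000 * (μ * M)) := by ring
        _ ≤ μ * E := Nat.mul_le_mul_left _ h5
    omega
  have hpf : p < m * f := by
    have h6 : m * (p / m + 1) ≤ m * f := Nat.mul_le_mul_left _ hf1
    have h7 : m * (p / m + 1) = m * (p / m) + m := by ring
    omega
  obtain ⟨n, rfl⟩ : ∃ n, m = n + 1 := ⟨m - 1, by omega⟩
  have hn : n + 1 - 1 = n := by omega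
  rw [hn]
  have hpf2 : n * f ≤ p := by
    have h5 : n * f ≤ n * (p / (n + 1) + M) := Nat.mul_le_mul_left _ hf2
    have h6 : n * (p / (n + 1) + M) = n * (p / (n + 1)) + n * M := by ring
    have h7 : (n + 1) * (p / (n + 1)) = n * (p / (n + 1)) + p / (n + 1) := by ring
    have h8 : n * M ≤ μ * M := Nat.mul_le_mul_right _ (by omega)
    omega
  have hf0 : 0 < f := by omega
  refine ⟨f, ?_, ?_, hf3, ?_, ?_, hpf2, hpf⟩
  · -- `f ≤ E`
    have h1 : p ≤ n * E := by
      have h2 : 98 * μ ≤ 100 * n := by omega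
      have h3 : 98 * μ * E ≤ 100 * n * E := Nat.mul_le_mul_right _ h2
      have h4 : 98 * μ * E = 98 * (μ * E) := by ring
      have h5 : 100 * n * E = 100 * (n * E) := by ring
      have h6 : 1000 ≤ μ * E := by
        have : 0 < E := by rw [hEM]; positivity
        calc 1000 ≤ μ := hμ
          _ ≤ μ * E := Nat.le_mul_of_pos_right _ this
      omega
    exact Nat.le_of_mul_le_mul_left (hpf2.trans h1) (by omega)
  · -- `E ≤ 2 f`
    by_contra hcon
    push Not at hcon
    have h1 : (n + 1) * (2 * f) ≤ (n + 1) * E := Nat.mul_le_mul_left _ hcon.le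
    have h2 : (n + 1) * E ≤ μ * E := Nat.mul_le_mul_right _ hm2
    have h3 : (n + 1) * (2 * f) = 2 * ((n + 1) * f) := by ring
    omega
  · apply Nat.div_eq_of_lt_le
    · exact hpf2
    · exact hpf
  · have h1 : f ≤ (n + 1) * f := Nat.le_mul_of_pos_left _ (by omega)
    omega

/-- one row -/
theorem next (hGA : GoalGA4) {μ b K τ J1 M E P0 : ℕ} {ms r Γ : ℕ → ℕ} {t : ℕ}
    (hμ : 1000 ≤ μ) (hb : 1 ≤ b) (hbK : b ≤ K) (hM : M = 2 * (μ + 1) ^ (K + 1))
    (hE : E = 4000 * μ ^ 2 * M) (hP0 : 4 * P0 = 3 * (μ * E) + 4)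
    (hms : ∀ i < K, 99 * μ ≤ 100 * ms i ∧ ms i ≤ μ)
    (hr : ∀ i, b ≤ i → i < K → r i ≤ J1) (hτt : τ ≤ t)
    (hup : 4 * Γ J1 ≤ b * μ) (hmon : t ≤ J1 → Γ t ≤ Γ J1)
    (hmon1 : t + 1 ≤ J1 → Γ (t + 1) ≤ Γ J1)
    (hgr : Γ t + 4 * K ≤ Γ (t + 1)) (hlt : Γ (t + 1) < ∑ i ∈ range K, ms i)
    (hst : ∃ e P, St μ b K τ M E P0 ms r Γ t e P) :
    ∃ e P, St μ b K τ M E P0 ms r Γ (t + 1) e P := by
  obtain ⟨e, P, hst⟩ := hst
  have hEp : 0 < E := by
    rw [hE, hM]
    positivity
  obtain ⟨B, hB⟩ : ∃ B : Finset ℕ, B = (range K).filter (fun i => b ≤ i ∧ r i = t + 1) := ⟨_, rfl⟩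
  have hmemB : ∀ i, i ∈ B ↔ i < K ∧ b ≤ i ∧ r i = t + 1 := by
    intro i
    rw [hB]
    simp
  have hBc : B.card ≤ K := by
    rw [hB]
    calc _ ≤ (range K).card := Finset.card_filter_le _ _
      _ = K := card_range K
  obtain ⟨p, hp1, hp2, hp3⟩ := step hGA hμ hb hbK hM hE hms hr hst hτt hup hmon hmon1 hgr hlt
    (Γ (t + 1) - B.card) (by omega) (by omega)
  have hPt : ∀ t', τ ≤ t' → t' ≤ t → P t ≤ P t' := fun t' h1 h2 =>
    anti hst (t - t') t' (by omega) h1
  have hpP0 : p ≤ P0 := by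
    have h1 := hPt τ le_rfl hτt
    have h2 := hst.s6
    omega
  -- the new slopes
  have hnew : ∀ i, ∃ f, i ∈ B → f ≤ E ∧ E ≤ 2 * f ∧ f % M = 2 * (μ + 1) ^ i ∧ p / f = ms i - 1 ∧
      p + f < p + 1 + ms i * f ∧ (ms i - 1) * f ≤ p ∧ p < ms i * f := by
    intro i
    by_cases hi : i ∈ B
    · obtain ⟨h1, h2, h3⟩ := (hmemB i).1 hi
      have h4 := hr i h2 h1
      have h5 := hmon1 (by omega)
      have hlow := p_low hb hbK hEp hms hst p _ hp3 (by omega)
      obtain ⟨f, hf⟩ := new_slope (i := i) hμ hM hE hP0 h1 (hms i h1).1 (hms i h1).2 hlow hpP0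
      exact ⟨f, fun _ => hf⟩
    · exact ⟨0, fun h => absurd h hi⟩
  choose f hf using hnew
  have hP : ∀ x, x ≤ t → (if x = t + 1 then p else P x) = P x := by
    intro x hx
    rw [if_neg (by omega)]
  have hmsB : ∀ i ∈ B, 1 ≤ ms i := by
    intro i hi
    have := (hms i ((hmemB i).1 hi).1).1
    omega
  have hold : ∀ i ∈ B, ∀ t', τ ≤ t' → t' ≤ t → ms i ≤ P t' / f i := by
    intro i hi t' h1 h2
    obtain ⟨h3, h4, _, _, _, h5, _⟩ := hf i hi
    rw [Nat.le_div_iff_mul_le (by omega)]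
    have h6 := hPt t' h1 h2
    have h7 := hmsB i hi
    have h8 : ms i * f i = (ms i - 1) * f i + f i := by
      obtain ⟨m, hm⟩ : ∃ m, ms i = m + 1 := ⟨ms i - 1, by omega⟩
      rw [hm]
      simp
      ring
    omega
  have hAB : ∀ i ∈ AA b K r t, i ∉ B := by
    intro i hi hiB
    have h1 := mem_AA.1 hi
    have h2 := (hmemB i).1 hiB
    omega
  have hAun : AA b K r (t + 1) = AA b K r t ∪ B := by
    ext i
    rw [mem_union, mem_AA, mem_AA, hmemB]
    omega
  have hdis : Disjoint (AA b K r t) B := by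
    rw [Finset.disjoint_left]
    exact hAB
  have he1 : ∀ i, i ∉ B → (if i ∈ B then f i else e i) = e i := fun i hi => if_neg hi
  have he2 : ∀ i, i ∈ B → (if i ∈ B then f i else e i) = f i := fun i hi => if_pos hi
  have hbB : ∀ i < b, i ∉ B := by
    intro i hi hiB
    have := (hmemB i).1 hiB
    omega
  refine ⟨fun i => if i ∈ B then f i else e i, fun x => if x = t + 1 then p else P x, ?_⟩
  refine ⟨?_, ?_, ?_, ?_, ?_, ?_, ?_⟩
  · intro i hi
    rw [hAun, mem_union] at hi
    rcases hi with hi | hi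
    · simp only [he1 i (hAB i hi)]
      exact hst.s1 i hi
    · simp only [he2 i hi]
      obtain ⟨h1, h2, h3, _⟩ := hf i hi
      exact ⟨h1, h2, h3⟩
  · intro t' h1 h2
    rcases Nat.lt_or_ge t t' with h3 | h3
    · have : t' = t + 1 := by omega
      simp only [this, if_true]
      exact hp1
    · simp only [hP t' h3]
      exact hst.s2 t' h1 h3
  · intro t' h1 h2
    rcases Nat.lt_or_ge t' t with h3 | h3
    · simp only [hP t' h3.le, hP (t' + 1) h3]
      exact hst.s3 t' h1 h3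
    · have : t' = t := by omega
      subst this
      simp only [hP t' le_rfl, if_true]
      exact hp2
  · intro t' h1 h2
    rw [hAun, Finset.sum_union hdis]
    rcases Nat.lt_or_ge t t' with h3 | h3
    · have : t' = t + 1 := by omega
      subst this
      have h4 : ∑ i ∈ AA b K r t, (ms i - (if t + 1 = t + 1 then p else P (t + 1)) /
          (if i ∈ B then f i else e i)) = Γ (t + 1) - B.card := by
        rw [← hp3]
        apply Finset.sum_congr rfl
        intro i hi
        rw [he1 i (hAB i hi), if_pos rfl]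
      have h5 : ∑ i ∈ B, (ms i - (if t + 1 = t + 1 then p else P (t + 1)) /
          (if i ∈ B then f i else e i)) = B.card := by
        have h6 : ∀ i ∈ B, (ms i - (if t + 1 = t + 1 then p else P (t + 1)) /
            (if i ∈ B then f i else e i)) = 1 := by
          intro i hi
          rw [he2 i hi, if_pos rfl, (hf i hi).2.2.2.1]
          have := hmsB i hi
          omega
        rw [Finset.sum_congr rfl h6, Finset.sum_const, smul_eq_mul, mul_one]
      rw [h4, h5]
      omega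
    · have h4 : ∑ i ∈ AA b K r t, (ms i - (if t' = t + 1 then p else P t') /
          (if i ∈ B then f i else e i)) = Γ t' := by
        rw [← hst.s4 t' h1 h3]
        apply Finset.sum_congr rfl
        intro i hi
        rw [he1 i (hAB i hi), hP t' h3]
      have h5 : ∑ i ∈ B, (ms i - (if t' = t + 1 then p else P t') /
          (if i ∈ B then f i else e i)) = 0 := by
        apply Finset.sum_eq_zero
        intro i hi
        rw [he2 i hi, hP t' h3]
        have := hold i hi t' h1 h3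
        omega
      rw [h4, h5]
      omega
  · intro i hi
    simp only [he1 i (hbB i hi)]
    exact hst.s5 i hi
  · simp only [hP τ hτt]
    exact hst.s6
  · intro i h1 h2 h3 t' h4 h5
    rcases Nat.lt_or_ge t (r i) with h6 | h6
    · have hiB : i ∈ B := (hmemB i).2 ⟨h2, h1, by omega⟩
      simp only [he2 i hiB]
      have h9 := hmsB i hiB
      rcases Nat.lt_or_ge t t' with h7 | h7
      · have : t' = t + 1 := by omega
        simp only [this, if_true]
        rw [(hf i hiB).2.2.2.1]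
        constructor
        · intro _
          omega
        · intro _
          omega
      · simp only [hP t' h7]
        have := hold i hiB t' h4 h7
        constructor
        · intro _
          omega
        · intro _
          omega
    · have hiB : i ∉ B := by
        intro h
        have := (hmemB i).1 h
        omega
      simp only [he1 i hiB]
      rcases Nat.lt_or_ge t t' with h7 | h7
      · have : t' = t + 1 := by omega
        simp only [this, if_true]
        have h8 := (hst.s7 i h1 h2 h6 t hτt le_rfl).2 h6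
        have h9 : p / e i ≤ P t / e i := Nat.div_le_div_right (by omega)
        constructor
        · intro _
          omega
        · intro _
          omega
      · simp only [hP t' h7]
        exact hst.s7 i h1 h2 h6 t' h4 h7

theorem init (hGA : GoalGA4) {μ b K τ J1 M E P0 : ℕ} {ms r Γ : ℕ → ℕ}
    (hμ : 1000 ≤ μ) (hb : 1 ≤ b) (hbK : b ≤ K) (hM : M = 2 * (μ + 1) ^ (K + 1))
    (hE : E = 4000 * μ ^ 2 * M) (hP0 : 4 * P0 = 3 * (μ * E) + 4)
    (hms : ∀ i < K, 99 * μ ≤ 100 * ms i ∧ ms i ≤ μ)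
    (hr : ∀ i, b ≤ i → i < K → τ + 2 ≤ r i)
    (hup : 4 * Γ J1 ≤ b * μ) (hmon : Γ τ ≤ Γ J1) :
    ∃ e P, St μ b K τ M E P0 ms r Γ τ e P := by
  have hMp : 0 < M := by rw [hM]; positivity
  have hEM : E = 4000 * (μ * μ * M) := by rw [hE]; ring
  have hμM : 1000 * (μ * M) ≤ μ * μ * M := by
    have : 1000 * (μ * M) ≤ μ * (μ * M) := Nat.mul_le_mul_right _ hμ
    calc 1000 * (μ * M) ≤ μ * (μ * M) := this
      _ = μ * μ * M := by ring
  have hμM1 : 1000 * M ≤ μ * M := Nat.mul_le_mul_right _ hμ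
  have hEp : 0 < E := by omega
  have hμE : 1000 ≤ μ * E := by
    calc 1000 ≤ μ := hμ
      _ ≤ μ * E := Nat.le_mul_of_pos_right _ hEp
  have hnew : ∀ i, ∃ f, i < K → f ≤ E ∧ 74 * E ≤ 100 * f ∧ f % M = 2 * (μ + 1) ^ i ∧
      ms i * f ≤ P0 ∧ P0 < ms i * f + E := by
    intro i
    by_cases hi : i < K
    · obtain ⟨hm1, hm2⟩ := hms i hi
      have hlt : 2 * (μ + 1) ^ i < M := by
        have := pow_lt μ K i (by omega) hi 1 (by omega)
        rw [hM]
        simpa using this
      have hmp : 0 < ms i := by omega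
      have hdiv : ms i * (P0 / ms i) ≤ P0 := Nat.mul_div_le _ _
      have hdiv2 : P0 < ms i * (P0 / ms i) + ms i := by
        have h1 := Nat.div_add_mod P0 (ms i)
        have h2 := Nat.mod_lt P0 hmp
        omega
      have hlo : M ≤ P0 / ms i := by
        rw [Nat.le_div_iff_mul_le hmp]
        have h1 : M * ms i ≤ M * μ := Nat.mul_le_mul_left _ hm2
        have h2 : M * μ = μ * M := by ring
        have h3 : μ * M ≤ μ * E := Nat.mul_le_mul_left _ (by omega)
        have h4 : 4000 * (μ * M) ≤ E := by omega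
        have h5 : E ≤ μ * E := Nat.le_mul_of_pos_left _ (by omega)
        omega
      obtain ⟨f, hf1, hf2, hf3⟩ := exists_mod M _ (P0 / ms i - M) hlt
      have hfa : f ≤ P0 / ms i := by omega
      have hfb : P0 / ms i + 1 ≤ f + M := by omega
      have h1 : ms i * f ≤ P0 := (Nat.mul_le_mul_left _ hfa).trans hdiv
      have h2 : ms i * (P0 / ms i + 1) ≤ ms i * (f + M) := Nat.mul_le_mul_left _ hfb
      have h3 : ms i * (P0 / ms i + 1) = ms i * (P0 / ms i) + ms i := by ring
      have h4 : ms i * (f + M) = ms i * f + ms i * M := by ring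
      have h5 : ms i * M ≤ μ * M := Nat.mul_le_mul_right _ hm2
      refine ⟨f, fun _ => ⟨?_, ?_, hf3, h1, by omega⟩⟩
      · have h6 : ms i * f ≤ ms i * E := by
          have h7 : 99 * μ * E ≤ 100 * ms i * E := Nat.mul_le_mul_right _ hm1
          have h8 : 99 * μ * E = 99 * (μ * E) := by ring
          have h9 : 100 * ms i * E = 100 * (ms i * E) := by ring
          omega
        exact Nat.le_of_mul_le_mul_left h6 hmp
      · -- lower bound
        have h6 : P0 < μ * (f + M) := by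
          calc P0 < ms i * (f + M) := by omega
            _ ≤ μ * (f + M) := Nat.mul_le_mul_right _ hm2
        have h7 : 3 * E < 4 * (f + M) := by
          by_contra hcon
          push Not at hcon
          have h8 : μ * (4 * (f + M)) ≤ μ * (3 * E) := Nat.mul_le_mul_left _ hcon
          have h9 : μ * (4 * (f + M)) = 4 * (μ * (f + M)) := by ring
          have h10 : μ * (3 * E) = 3 * (μ * E) := by ring
          omega
        omega
    · exact ⟨0, fun h => absurd h hi⟩
  choose f hf using hnew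
  have hAA : AA b K r τ = range b := by
    ext i
    rw [mem_AA, mem_range]
    constructor
    · rintro ⟨h1, h2⟩
      by_contra h3
      have := hr i (by omega) h1
      omega
    · intro h
      exact ⟨by omega, Or.inl h⟩
  have hodd : Odd P0 := by
    have h1 : μ * E = 4 * (2 * (500 * (μ * (μ * μ * M)))) := by rw [hEM]; ring
    rw [h1] at hP0
    exact ⟨3 * (500 * (μ * (μ * μ * M))), by omega⟩
  have hsum : ∑ i ∈ range b, (ms i - P0 / f i) ≤ Γ τ := by
    have : ∑ i ∈ range b, (ms i - P0 / f i) = 0 := by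
      apply Finset.sum_eq_zero
      intro i hi
      rw [mem_range] at hi
      obtain ⟨h1, h2, _, h4, _⟩ := hf i (by omega)
      have h3 : ms i ≤ P0 / f i := by
        rw [Nat.le_div_iff_mul_le (by omega)]
        exact h4
      omega
    omega
  have hlt : Γ τ < ∑ i ∈ range b, ms i := by
    by_contra hcon
    push Not at hcon
    have h6 : 4 * ∑ i ∈ range b, ms i ≤ b * μ := by omega
    obtain ⟨i, hi, h7⟩ := pigeon hb _ h6
    have h8 := (hms i (by omega)).1
    omega
  obtain ⟨p, hp1, hp2, hp3⟩ := hGA μ (range b) ms f P0 (Γ τ)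
    (fun i hi => by
      rw [mem_range] at hi
      have h1 := hf i (by omega)
      exact ⟨by omega, even_of_mod μ K i (f i) (hM ▸ h1.2.2.1), (hms i (by omega)).2⟩)
    (fun i hi j hj hij a c ha haμ hc hcμ => by
      rw [mem_range] at hi hj
      have h1 := hf i (by omega)
      have h2 := hf j (by omega)
      exact dist μ K i j a c (f i) (f j) (by omega) (by omega)
        hij ha haμ hc hcμ (hM ▸ h1.2.2.1) (hM ▸ h2.2.2.1))
    hodd hsum hlt
  refine ⟨f, fun _ => p, ?_⟩
  refine ⟨?_, ?_, ?_, ?_, ?_, ?_, ?_⟩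
  · intro i hi
    rw [hAA, mem_range] at hi
    obtain ⟨h1, h2, h3, h4, h5⟩ := hf i (by omega)
    exact ⟨h1, by omega, h3⟩
  · intro _ _ _
    exact hp1
  · intro t' h1 h2
    omega
  · intro t' h1 h2
    have : t' = τ := by omega
    rw [this, hAA]
    exact hp3
  · intro i hi
    obtain ⟨h1, h2, h3, h4, h5⟩ := hf i (by omega)
    exact ⟨h2, h5⟩
  · exact hp2
  · intro i h1 h2 h3
    exfalso
    have := hr i h1 h2
    omega

theorem goalGE4 (hGA : GoalGA4) : GoalGE4 := by
  intro μ b K τ J1 S ms r Γ hμ hb hbK hτJ hJS hms hr hg hS hJ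
  obtain ⟨M, hM⟩ : ∃ M, M = 2 * (μ + 1) ^ (K + 1) := ⟨_, rfl⟩
  obtain ⟨E, hE⟩ : ∃ E, E = 4000 * μ ^ 2 * M := ⟨_, rfl⟩
  obtain ⟨P0, hP0⟩ : ∃ P0, 4 * P0 = 3 * (μ * E) + 4 := by
    refine ⟨3 * (μ * (1000 * μ ^ 2 * M)) + 1, ?_⟩
    rw [hE]
    ring
  have hMp : 0 < M := by rw [hM]; positivity
  have hEp : 0 < E := by rw [hE]; positivity
  -- monotone
  have hmono : ∀ n t, τ ≤ t → t + n ≤ S → Γ t ≤ Γ (t + n) := by
    intro n
    induction n with
    | zero => intro t _ _; simp
    | succ n ih =>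
      intro t h1 h2
      have h3 := ih t h1 (by omega)
      have h4 := hg (t + n) (by omega) (by omega)
      have : t + (n + 1) = t + n + 1 := by ring
      rw [this]
      omega
  have hmono2 : ∀ t t', τ ≤ t → t ≤ t' → t' ≤ S → Γ t ≤ Γ t' := by
    intro t t' h1 h2 h3
    have := hmono (t' - t) t h1 (by omega)
    rwa [show t + (t' - t) = t' by omega] at this
  -- the row `s`
  have hex : ∃ s, τ ≤ s ∧ ∑ i ∈ range K, ms i ≤ Γ s := ⟨S, by omega, hS⟩
  classical
  obtain ⟨s, hs1, hs2, hs3⟩ : ∃ s, (τ ≤ s ∧ ∑ i ∈ range K, ms i ≤ Γ s) ∧ s ≤ S ∧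
      ∀ t, τ ≤ t → t < s → Γ t < ∑ i ∈ range K, ms i := by
    refine ⟨Nat.find hex, Nat.find_spec hex, Nat.find_min' hex ⟨by omega, hS⟩, ?_⟩
    intro t h1 h2
    have := Nat.find_min hex h2
    push Not at this
    exact this h1
  have hJs : J1 < s := by
    by_contra h
    push Not at h
    have h1 := hmono2 s J1 hs1.1 h (by omega)
    have h2 := hs1.2
    have h3 : ∑ i ∈ range b, ms i ≤ ∑ i ∈ range K, ms i :=
      Finset.sum_le_sum_of_subset (Finset.range_mono hbK)
    have h6 : 4 * ∑ i ∈ range b, ms i ≤ b * μ := by omega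
    obtain ⟨i, hi, h7⟩ := pigeon hb _ h6
    have h8 := (hms i (by omega)).1
    omega
  have key : ∀ n, τ + n < s → ∃ e P, St μ b K τ M E P0 ms r Γ (τ + n) e P := by
    intro n
    induction n with
    | zero =>
      intro _
      exact init hGA hμ hb hbK hM hE hP0 hms (fun i h1 h2 => (hr i h1 h2).1) hJ
        (hmono2 τ J1 le_rfl hτJ.le (by omega))
    | succ n ih =>
      intro hn
      have h1 := ih (by omega)
      have hle : τ ≤ τ + n := by omega
      have hm1 : τ + n ≤ J1 → Γ (τ + n) ≤ Γ J1 := fun h => hmono2 (τ + n) J1 hle h hJS.le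
      have hm2 : τ + n + 1 ≤ J1 → Γ (τ + n + 1) ≤ Γ J1 := fun h =>
        hmono2 (τ + n + 1) J1 (by omega) h hJS.le
      have hg1 := hg (τ + n) hle (by omega)
      have hs4 := hs3 (τ + n + 1) (by omega) (by omega)
      exact next hGA hμ hb hbK hM hE hP0 hms (fun i h1 h2 => (hr i h1 h2).2) hle hJ hm1 hm2
        hg1 hs4 h1
  obtain ⟨e, P, hst⟩ := key (s - 1 - τ) (by omega)
  rw [show τ + (s - 1 - τ) = s - 1 by omega] at hst
  have hAA : AA b K r (s - 1) = range K := AA_all (fun i h1 h2 => (hr i h1 h2).2) (by omega)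
  have hA1 : ∀ i < K, e i ≤ E ∧ E ≤ 2 * e i ∧ e i % M = 2 * (μ + 1) ^ i := by
    intro i hi
    exact hst.s1 i (by rw [hAA]; exact mem_range.2 hi)
  refine ⟨s, E, e, P, hJs, hs2, hs3, hs1.2, ?_, ?_, ?_, ?_, ?_, ?_⟩
  · intro i hi
    have := hA1 i hi
    refine ⟨?_, this.1, this.2.1⟩
    omega
  · intro i hi t' ht1 ht2 hd
    have h2 : 2 ∣ e i := even_of_mod μ K i (e i) (hM ▸ (hA1 i hi).2.2)
    have h3 := hst.s2 t' ht1 (by omega)
    have h4 : 2 ∣ P t' := h2.trans hd
    rw [Nat.odd_iff] at h3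
    omega
  · intro t' ht1 ht2
    exact hst.s3 t' ht1 (by omega)
  · intro t' ht1 ht2
    have := hst.s4 t' ht1 (by omega)
    rwa [hAA] at this
  · intro i hi
    have h2 := hst.s3 τ le_rfl (by omega)
    have h3 := hst.s6
    have h4 := (hst.s5 i hi).2
    have h5 : 0 < e i := by
      have := (hA1 i (by omega)).2.1
      omega
    rw [Nat.div_lt_iff_lt_mul h5]
    omega
  · intro i hi1 hi2 t' ht1 ht2
    exact hst.s7 i hi1 hi2 (by have := (hr i hi1 hi2).2; omega) t' ht1 (by omega)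

end Pool.Agent.Helper59.UW
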